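import Pool.Agent.W662.CB.Stmts

/-!
# Project CB, step B5: the trace vector
-/

set_option autoImplicit false

open MeasureTheory Filter Topology Complex
open scoped InnerProductSpace ENNReal
open Pool.Agent.W662.CB

noncomputable section

namespace Pool.Agent.W212.CB

theorem star_inner {K : Type} [NormedAddCommGroup K] [InnerProductSpace ℂ K] [CompleteSpace K]
    (A : K →L[ℂ] K) (x y : K) : ⟪x, A y⟫_ℂ = ⟪star A x, y⟫_ℂ := by
  rw [ContinuousLinearMap.star_eq_adjoint, ContinuousLinearMap.adjoint_inner_left]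

theorem hs_congr {f g : ℤ → ℂ} {a : ℂ} (h : HasSum f a) (e : ∀ m, f m = g m) : HasSum g a := by
  rwa [← funext e]

theorem U_iso {H : Type} [NormedAddCommGroup H] [InnerProductSpace ℂ H] [CompleteSpace H]
    {M : VonNeumannAlgebra H} {ξ : H} {U : ℝ → H →L[ℂ] H} (hU : IsModular M ξ U) (t : ℝ)
    (x y : H) : ⟪U t x, U t y⟫_ℂ = ⟪x, y⟫_ℂ := by
  rw [star_inner, hU.star_eq, ← mul_apply_eq_comp, ← hU.add, neg_add_cancel, hU.zero]
  rfl

theorem b5 (h1 : S_B1) (h2 : S_B2) (h3 : S_B3) (h4 : S_B4) : S_B5 := by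
  intro H K _ _ _ _ _ _ M ξ U κ V J E T δ hU hB Z hZ hZ0
  obtain ⟨b1, b2, -, -, -, -, -, -, -⟩ := h1 H K M ξ U κ V J E T δ hU hB
  have hE00 : E 0 * E 0 = E 0 := by rw [← hB.E_add, add_zero]
  have hEs0 : star (E 0) = E 0 := by rw [hB.E_star]; simp
  have hZl : E 0 * Z = Z := by
    calc E 0 * Z = E 0 * (E 0 * Z * E 0) := by rw [hZ0]
      _ = (E 0 * E 0) * Z * E 0 := by simp only [mul_assoc]
      _ = Z := by rw [hE00, hZ0]
  have hZr : Z * E 0 = Z := by
    calc Z * E 0 = (E 0 * Z * E 0) * E 0 := by rw [hZ0]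
      _ = E 0 * Z * (E 0 * E 0) := by simp only [mul_assoc]
      _ = Z := by rw [hE00, hZ0]
  have hSl : E 0 * star Z = star Z := by
    have := congrArg star hZr
    rwa [star_mul, hEs0] at this
  have hSr : star Z * E 0 = star Z := by
    have := congrArg star hZl
    rwa [star_mul, hEs0] at this
  have hB2 := h2 H K M U κ V J E T δ hB
  have hZs : Aff M κ V (star Z) := (hB2 Z hZ).2.1
  have hEI : star (E (-I)) = E (-I) := by rw [hB.E_star]; simp
  have hEr : ∀ t : ℝ, star (E (t : ℂ)) = E ((-t : ℝ) : ℂ) := by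
    intro t
    rw [hB.E_star, Complex.conj_ofReal, Complex.ofReal_neg]
  have hEE : ∀ (z w : ℂ) (v : K), E z (E w v) = E (z + w) v := by
    intro z w v
    rw [hB.E_add]
    rfl
  have hZl' : ∀ v : K, E 0 (Z v) = Z v := fun v => by
    conv_rhs => rw [← hZl]
    rfl
  have hZr' : ∀ v : K, Z (E 0 v) = Z v := fun v => by
    conv_rhs => rw [← hZr]
    rfl
  have hSl' : ∀ v : K, E 0 (star Z v) = star Z v := fun v => by
    conv_rhs => rw [← hSl]
    rfl
  have hVE : ∀ (t : ℝ) (z : ℂ) (v : K), V t (E z v) = E z (V t v) := by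
    intro t z v
    have := hB.V_E t z
    exact congrArg (fun A : K →L[ℂ] K => A v) this
  have hVZ : ∀ (t : ℝ) (v : K), V t (Z v) = Z (V t v) := by
    intro t v
    have := (hZ.1 t).symm
    exact congrArg (fun A : K →L[ℂ] K => A v) this
  -- the common terms
  set tm : ℤ → ℂ := fun m =>
    ⟪ContinuousLinearMap.adjoint J (E ((-((m : ℝ) * T) : ℝ) : ℂ) (Z (J ξ))),
      ContinuousLinearMap.adjoint J (E ((-((m : ℝ) * T) : ℝ) : ℂ) (Z (E (-I) (J ξ))))⟫_ℂ with htm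
  -- first sum
  have s1 : HasSum tm ⟪J ξ, (star Z * Z) (E (-I) (J ξ))⟫_ℂ := by
    have h := (innerSL ℂ (Z (J ξ))).hasSum (hB.compl (Z (E (-I) (J ξ))))
    have e1 : innerSL ℂ (Z (J ξ)) (E 0 (Z (E (-I) (J ξ)))) =
        ⟪J ξ, (star Z * Z) (E (-I) (J ξ))⟫_ℂ := by
      rw [hZl', mul_apply_eq_comp, star_inner, star_star]
      rfl
    rw [e1] at h
    refine hs_congr h (fun m => ?_)
    rw [htm]
    dsimp only
    rw [innerSL_apply_apply, star_inner, hEr, ContinuousLinearMap.adjoint_inner_left]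
  -- second sum
  have s2 : HasSum (fun m : ℤ => tm (-m)) ⟪E (-I) (J ξ), (Z * star Z) (J ξ)⟫_ℂ := by
    have h := ((innerSL ℂ (E (-I) (J ξ))).comp Z).hasSum (hB.compl (star Z (J ξ)))
    have e1 : ((innerSL ℂ (E (-I) (J ξ))).comp Z) (E 0 (star Z (J ξ))) =
        ⟪E (-I) (J ξ), (Z * star Z) (J ξ)⟫_ℂ := by
      rw [hSl']
      rfl
    rw [e1] at h
    refine hs_congr h (fun m => ?_)
    set s : ℝ := (m : ℝ) * T with hs
    have hm : ((-m : ℤ) : ℝ) * T = -s := by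
      rw [hs]
      push_cast
      ring
    -- the element of `M`
    have hX : Aff M κ V (E (-I) * Z * E (s : ℂ)) := (hB2 Z hZ).2.2 _ _
    have hY : Aff M κ V (E ((-s : ℝ) : ℂ) * star Z) := by
      have := (hB2 (star Z) hZs).2.2 ((-s : ℝ) : ℂ) 0
      rwa [mul_assoc, hSr] at this
    have hbM : sl J (E ((-s : ℝ) : ℂ) * star Z) ∈ M := (hB2 _ hY).1
    have km := (h3 H K M ξ U κ V J E T δ hU hB _ hX).2 _ hbM
    have hc : E I * (E (-I) * Z * E (s : ℂ)) * E (-I) = Z * E (s : ℂ) * E (-I) := by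
      calc E I * (E (-I) * Z * E (s : ℂ)) * E (-I)
          = (E I * E (-I)) * Z * E (s : ℂ) * E (-I) := by simp only [mul_assoc]
        _ = Z * E (s : ℂ) * E (-I) := by rw [← hB.E_add, add_neg_cancel, hZl]
    rw [hc] at km
    have e2 : ((innerSL ℂ (E (-I) (J ξ))).comp Z) (E (s : ℂ) (J (ContinuousLinearMap.adjoint J
        (E ((-s : ℝ) : ℂ) (star Z (J ξ)))))) =
        vst ξ (sl J (E (-I) * Z * E (s : ℂ)) * sl J (E ((-s : ℝ) : ℂ) * star Z)) := by
      unfold vst sl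
      simp only [mul_apply_eq_comp, ContinuousLinearMap.comp_apply,
        innerSL_apply_apply]
      rw [ContinuousLinearMap.adjoint_inner_right, star_inner (E (-I)), hEI]
    rw [e2, km]
    have e3 : vst ξ (sl J (E ((-s : ℝ) : ℂ) * star Z) * sl J (Z * E (s : ℂ) * E (-I))) =
        ⟪ContinuousLinearMap.adjoint J (Z (E (s : ℂ) (J ξ))),
          ContinuousLinearMap.adjoint J (Z (E (s : ℂ) (E (-I) (J ξ))))⟫_ℂ := by
      unfold vst sl
      simp only [mul_apply_eq_comp, ContinuousLinearMap.comp_apply]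
      rw [ContinuousLinearMap.adjoint_inner_right, star_inner (E _), hEr, neg_neg,
        star_inner (star Z), star_star, ← ContinuousLinearMap.adjoint_inner_left]
    rw [e3, ← U_iso hU (-s), b2, b2, neg_neg, htm]
    dsimp only
    rw [hm, neg_neg]
    congr 2
    · rw [hVE, hVZ, hVE, b1, hEE (s : ℂ), Complex.ofReal_neg, add_neg_cancel, hZr']
    · have e5 : (s : ℂ) + -I + ((-s : ℝ) : ℂ) = -I := by
        push_cast
        ring
      rw [hVE, hVZ, hVE, hVE, b1, hEE (s : ℂ), hEE, e5]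
  have s1' : HasSum (fun m : ℤ => tm (-m)) ⟪J ξ, (star Z * Z) (E (-I) (J ξ))⟫_ℂ :=
    (Equiv.neg ℤ).hasSum_iff.2 s1
  have key := s1'.unique s2
  have hVQ : ∀ (A B : K →L[ℂ] K), Aff M κ V A → Aff M κ V B → ∀ t : ℝ, A * B * V t = V t * (A * B) := by
    intro A B hA hB' t
    rw [mul_assoc, hB'.1 t, ← mul_assoc, hA.1 t, mul_assoc]
  have k1 := (h4 H K M ξ U κ V J E T δ hU hB (star Z * Z) (hVQ _ _ hZs hZ) (by
    rw [← mul_assoc, hSl, mul_assoc, hZr])).1
  have k2 := (h4 H K M ξ U κ V J E T δ hU hB (Z * star Z) (hVQ _ _ hZ hZs) (by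
    rw [← mul_assoc, hZl, mul_assoc, hSr])).2
  have n1 : ⟪E (-I / 2) (J ξ), (star Z * Z) (E (-I / 2) (J ξ))⟫_ℂ =
      ((‖Z (E (-I / 2) (J ξ))‖ ^ 2 : ℝ) : ℂ) := by
    rw [mul_apply_eq_comp, star_inner, star_star, inner_self_eq_norm_sq_to_K]
    norm_cast
  have n2 : ⟪E (-I / 2) (J ξ), (Z * star Z) (E (-I / 2) (J ξ))⟫_ℂ =
      ((‖star Z (E (-I / 2) (J ξ))‖ ^ 2 : ℝ) : ℂ) := by
    rw [mul_apply_eq_comp, star_inner, inner_self_eq_norm_sq_to_K]
    norm_cast
  rw [n1] at k1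
  rw [n2] at k2
  have k3 : ((‖Z (E (-I / 2) (J ξ))‖ ^ 2 : ℝ) : ℂ) = ((‖star Z (E (-I / 2) (J ξ))‖ ^ 2 : ℝ) : ℂ) := by
    rw [k1, k2, key]
  have k4 := Complex.ofReal_injective k3
  exact (pow_left_inj₀ (norm_nonneg _) (norm_nonneg _) two_ne_zero).1 k4

end Pool.Agent.W212.CB
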